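import Pool.Agent.Helper70.MM.Goals

open MeasureTheory Set Metric
open scoped ENNReal RealInnerProductSpace Topology
open Pool.Agent.Results.MP_91ee6f_gt

namespace Pool.Agent.Helper33.MM
open Pool.Agent.Helper70.MM

lemma deriv_nonneg_of_left {φ : ℝ → ℝ} {φ' a : ℝ} (ha : 0 < a) (h : HasDerivAt φ φ' 0)
    (hle : ∀ t, -a ≤ t → t ≤ 0 → φ t ≤ φ 0) : 0 ≤ φ' := by
  have h1 := hasDerivAt_iff_tendsto_slope.1 h
  have h2 : Filter.Tendsto (slope φ 0) (𝓝[<] 0) (𝓝 φ') :=
    h1.mono_left (nhdsWithin_mono _ (fun t ht => ne_of_lt ht))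
  refine ge_of_tendsto h2 ?_
  have h3 : Ioo (-a) (0:ℝ) ∈ 𝓝[<] (0:ℝ) := Ioo_mem_nhdsLT (by linarith)
  filter_upwards [h3] with t ht
  rw [slope_def_field]
  have := hle t ht.1.le ht.2.le
  exact div_nonneg_of_nonpos (by linarith) (by linarith [ht.2])

section
variable {n : ℕ}

lemma dist_ge {R : ℝ} {x y : En n} (hy : ‖y‖ = R) : R - ‖x‖ ≤ dist x y := by
  rw [dist_comm, dist_eq_norm, ← hy]
  exact norm_sub_norm_le y x

lemma dist_le {R : ℝ} {x y : En n} (hy : ‖y‖ = R) (hx : ‖x‖ ≤ R) : dist x y ≤ 2 * R := by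
  rw [dist_eq_norm]
  have := norm_sub_le x y
  linarith

lemma exists_unit (hn : 1 ≤ n) : ∃ e : En n, ‖e‖ = 1 := by
  refine ⟨EuclideanSpace.single ⟨0, hn⟩ 1, ?_⟩
  simp

/-- The potentials are invariant. -/
lemma U_inv (h2 : SPH2) (R : ℝ) (j : ℕ) (g : En n ≃ₗᵢ[ℝ] En n) (x : En n) :
    U (sphUnif n R) j (g x) = U (sphUnif n R) j x := by
  have h := (h2 n R).1 g
  unfold U
  calc ∫ y, om j (dist (g x) y) ∂(sphUnif n R)
      = ∫ y, om j (dist (g x) y) ∂((sphUnif n R).map g) := by rw [h]
    _ = ∫ y, om j (dist (g x) (g y)) ∂(sphUnif n R) := by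
        exact g.toHomeomorph.measurableEmbedding.integral_map _
    _ = ∫ y, om j (dist x y) ∂(sphUnif n R) := by
        simp only [g.dist_map]

lemma inner_zero (h2 : SPH2) (R : ℝ) (x : En n) :
    ∫ y, inner ℝ x y ∂(sphUnif n R) = 0 := by
  have h := (h2 n R).1 (LinearIsometryEquiv.neg ℝ)
  have h3 : ∫ y, inner ℝ x y ∂(sphUnif n R) = - ∫ y, inner ℝ x y ∂(sphUnif n R) := by
    calc ∫ y, inner ℝ x y ∂(sphUnif n R)
        = ∫ y, inner ℝ x y ∂((sphUnif n R).map (LinearIsometryEquiv.neg ℝ : En n ≃ₗᵢ[ℝ] En n)) := by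
          rw [h]
      _ = ∫ y, inner ℝ x ((LinearIsometryEquiv.neg ℝ : En n ≃ₗᵢ[ℝ] En n) y) ∂(sphUnif n R) :=
          (LinearIsometryEquiv.neg ℝ : En n ≃ₗᵢ[ℝ] En n).toHomeomorph.measurableEmbedding.integral_map
            _
      _ = - ∫ y, inner ℝ x y ∂(sphUnif n R) := by
          rw [← integral_neg]
          refine integral_congr_ae (Filter.Eventually.of_forall fun y => ?_)
          show inner ℝ x (-y) = - inner ℝ x y
          rw [inner_neg_right]
  linarith

end

theorem urad : UD → SPH1 → SPH2 → URAD := by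
  intro hUD h1 h2 n hn R hR j
  obtain ⟨hprob, hnorm, -⟩ := h1 n hn R
  have hnorm := hnorm hR.le
  obtain ⟨e0, he0⟩ := exists_unit hn
  have hdist : ∀ x : En n, ‖x‖ < R → ∀ᵐ y ∂(sphUnif n R), R - ‖x‖ ≤ dist x y := by
    intro x _
    filter_upwards [hnorm] with y hy using dist_ge hy
  have hint : ∀ (i : ℕ) (x : En n), ‖x‖ < R →
      Integrable (fun y => om i (dist x y)) (sphUnif n R) := by
    intro i x hx
    exact (hUD n i (sphUnif n R) inferInstance x e0 (R - ‖x‖) (by linarith) he0 (hdist x hx)).1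
  have hlow : ∀ (i : ℕ) (x : En n), ‖x‖ < R →
      ∀ᵐ y ∂(sphUnif n R), om i (2 * R) ≤ om i (dist x y) := by
    intro i x hx
    filter_upwards [hnorm] with y hy
    exact om_le i (by have := dist_ge (x := x) hy; linarith) (dist_le hy hx.le)
  refine ⟨?_, ?_, ?_, ?_⟩
  · intro x hx
    have h3 : ∫ _y : En n, om j (2 * R) ∂(sphUnif n R) ≤ U (sphUnif n R) j x :=
      integral_mono_ae (integrable_const _) (hint j x hx) (hlow j x hx)
    rw [integral_const] at h3
    have h4 : 0 < om j (2 * R) := om_pos j (by linarith)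
    simp at h3
    linarith
  · intro x x' hx hxx
    have h3 : (Submodule.reflection (ℝ ∙ (x - x'))ᗮ) x = x' := Submodule.reflection_sub hxx
    have h4 := U_inv h2 R j (Submodule.reflection (ℝ ∙ (x - x'))ᗮ) x
    rw [h3] at h4
    exact h4.symm
  · intro x hx
    rw [mem_ball_zero_iff] at hx
    refine ContinuousAt.continuousWithinAt ?_
    have hδ : 0 < R - ‖x‖ := by linarith
    refine continuousAt_of_dominated (bound := fun _ => om j ((R - ‖x‖) / 2)) ?_ ?_ ?_ ?_
    · refine Filter.Eventually.of_forall fun z => ?_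
      exact ((om_measurable j).comp (measurable_const.dist measurable_id)).aestronglyMeasurable
    · have hb : ball x ((R - ‖x‖) / 2) ∈ 𝓝 x := ball_mem_nhds _ (by linarith)
      filter_upwards [hb] with z hz
      filter_upwards [hnorm] with y hy
      rw [mem_ball, dist_eq_norm] at hz
      have h3 : ‖z‖ ≤ ‖x‖ + ‖z - x‖ := by
        calc ‖z‖ = ‖x + (z - x)‖ := by congr 1; abel
          _ ≤ _ := norm_add_le _ _
      have h4 : (R - ‖x‖) / 2 ≤ dist z y := by
        have := dist_ge (x := z) hy
        linarith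
      rw [Real.norm_eq_abs, abs_of_pos (om_pos j (by linarith))]
      exact om_le j (by linarith) h4
    · exact integrable_const _
    · filter_upwards [hnorm] with y hy
      have h3 : 0 < dist x y := by
        have := dist_ge (x := x) hy
        linarith
      have h4 : ContinuousAt (om j) (dist x y) :=
        (om_continuousOn j).continuousAt (Ioi_mem_nhds h3)
      exact ContinuousAt.comp (f := fun z : En n => dist z y) (g := om j) (x := x) h4
        (by fun_prop)
  · intro e r0 c he hr0 hrc hcR hmax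
    have hc : 0 < c := by linarith
    set x : En n := c • e with hx
    have hxn : ‖x‖ = c := by
      rw [hx, norm_smul, he, mul_one, Real.norm_eq_abs, abs_of_pos hc]
    have hxR : ‖x‖ < R := by rw [hxn]; exact hcR
    obtain ⟨-, hi1, -, hd, -⟩ := hUD n j (sphUnif n R) inferInstance x e (R - ‖x‖)
      (by linarith) he (hdist x hxR)
    have hd0 := hd 0 (by rw [abs_zero]; linarith)
    have hφ := deriv_nonneg_of_left (a := c - r0) (by linarith) hd0 (by
      intro t ht1 ht2
      have e1 : x + t • e = (c + t) • e := by rw [hx, add_smul]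
      have e2 : x + (0 : ℝ) • e = c • e := by rw [zero_smul, add_zero]
      rw [e1, e2]
      exact hmax (c + t) ⟨by linarith, by linarith⟩)
    rw [zero_smul, add_zero] at hφ
    have hI : ∫ y, om (j + 1) (dist x y) * inner ℝ (x - y) e ∂(sphUnif n R) ≤ 0 := by linarith
    -- the pointwise identity
    have hpt : ∀ᵐ y ∂(sphUnif n R), (2 * c) * (om (j + 1) (dist x y) * inner ℝ (x - y) e) =
        om (j + 1) (dist x y) * dist x y ^ 2 - (R ^ 2 - c ^ 2) * om (j + 1) (dist x y) := by
      filter_upwards [hnorm] with y hy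
      have e3 : c * inner ℝ (x - y) e = inner ℝ (x - y) x := by
        rw [hx, inner_smul_right]
      have e4 : dist x y ^ 2 = c ^ 2 - 2 * inner ℝ x y + R ^ 2 := by
        rw [dist_eq_norm, norm_sub_sq_real, hxn, hy]
      have e5 : (inner ℝ (x - y) x : ℝ) = c ^ 2 - inner ℝ x y := by
        rw [inner_sub_left, real_inner_self_eq_norm_sq, hxn, real_inner_comm]
      have e6 : (2 * c) * (om (j + 1) (dist x y) * inner ℝ (x - y) e) =
          2 * om (j + 1) (dist x y) * (c * inner ℝ (x - y) e) := by ring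
      rw [e6, e3, e4, e5]
      ring
    have hmeas : AEStronglyMeasurable (fun y => om (j + 1) (dist x y) * dist x y ^ 2)
        (sphUnif n R) := by
      have m1 : Measurable fun y : En n => om (j + 1) (dist x y) :=
        (om_measurable (j + 1)).comp (measurable_const.dist measurable_id)
      have m2 : Measurable fun y : En n => dist x y := measurable_const.dist measurable_id
      exact (m1.mul (m2.pow_const 2)).aestronglyMeasurable
    have hk : Integrable (fun y => om (j + 1) (dist x y) * dist x y ^ 2) (sphUnif n R) := by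
      refine (hi1.const_mul ((2 * R) ^ 2)).mono' hmeas ?_
      filter_upwards [hnorm] with y hy
      have h3 : 0 < dist x y := by
        have := dist_ge (x := x) hy
        linarith
      have h4 := dist_le hy hxR.le
      have h5 := om_pos (j + 1) h3
      rw [Real.norm_eq_abs, abs_of_nonneg (by positivity), mul_comm]
      gcongr
    have hint2 : (2 * c) * ∫ y, om (j + 1) (dist x y) * inner ℝ (x - y) e ∂(sphUnif n R) =
        ∫ y, om (j + 1) (dist x y) * dist x y ^ 2 ∂(sphUnif n R) -
          (R ^ 2 - c ^ 2) * U (sphUnif n R) (j + 1) x := by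
      rw [← integral_const_mul, integral_congr_ae hpt, integral_sub hk (hi1.const_mul _),
        integral_const_mul]
      rfl
    have hle : ∫ y, om (j + 1) (dist x y) * dist x y ^ 2 ∂(sphUnif n R) ≤
        (R ^ 2 - c ^ 2) * U (sphUnif n R) (j + 1) x := by
      have : (2 * c) * ∫ y, om (j + 1) (dist x y) * inner ℝ (x - y) e ∂(sphUnif n R) ≤ 0 :=
        mul_nonpos_of_nonneg_of_nonpos (by linarith) hI
      linarith
    -- the second moment
    have hd2 : ∀ᵐ y ∂(sphUnif n R), dist x y ^ 2 = (R ^ 2 + c ^ 2) - 2 * inner ℝ x y := by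
      filter_upwards [hnorm] with y hy
      rw [dist_eq_norm, norm_sub_sq_real, hxn, hy]
      ring
    have hin : Integrable (fun y => (inner ℝ x y : ℝ)) (sphUnif n R) := by
      refine Integrable.mono' (integrable_const (‖x‖ * R)) ?_ ?_
      · exact (by fun_prop : Continuous fun y : En n => (inner ℝ x y : ℝ)).aestronglyMeasurable
      · filter_upwards [hnorm] with y hy
        rw [← hy]
        exact norm_inner_le_norm x y
    have hm2 : ∫ y, dist x y ^ 2 ∂(sphUnif n R) = R ^ 2 + c ^ 2 := by
      rw [integral_congr_ae hd2, integral_sub (integrable_const _) (hin.const_mul 2),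
        integral_const_mul, inner_zero h2]
      simp
    have hid : Integrable (fun y => dist x y ^ 2) (sphUnif n R) := by
      refine ((integrable_const (R ^ 2 + c ^ 2)).sub (hin.const_mul 2)).congr ?_
      filter_upwards [hd2] with y hy
      rw [hy]
      rfl
    have hge : om (j + 1) (2 * R) * (R ^ 2 + c ^ 2) ≤
        ∫ y, om (j + 1) (dist x y) * dist x y ^ 2 ∂(sphUnif n R) := by
      rw [← hm2, ← integral_const_mul]
      refine integral_mono_ae (hid.const_mul _) hk ?_
      filter_upwards [hlow (j + 1) x hxR] with y hy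
      exact mul_le_mul_of_nonneg_right hy (by positivity)
    have hom := om_pos (j + 1) (show 0 < 2 * R by linarith)
    nlinarith [mul_nonneg hom.le (sq_nonneg c)]

end Pool.Agent.Helper33.MM
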